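import Mathlib

/-!
# Bounded aographs of large dimension on three pages

Every book with at least three pages contains order-preserving drawings, without edges through the
spine, of bounded acyclic oriented graphs of arbitrarily large dimension.
-/

set_option autoImplicit false

namespace Pool.Agent.Results.MP_c8a2a1_co.ThreePages

open Set

/-- An oriented graph without directed cycles; `E b a` means that `b → a` is an edge. -/
structure Aograph (V : Type) where
  E : V → V → Prop
  acyclic : ∀ v, ¬ Relation.TransGen E v v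

/-- The partial order of an aograph: `a ≤ b` iff `a = b` or there is a directed path from `b`
to `a`. -/
def Aograph.le {V : Type} (G : Aograph V) (a b : V) : Prop := Relation.ReflTransGen G.E b a

/-- There are a greatest and a least element. -/
def Aograph.Bounded {V : Type} (G : Aograph V) : Prop :=
  (∃ t, ∀ v, G.le v t) ∧ ∃ b, ∀ v, G.le b v

/-- Every edge `b → a` is a covering pair of the partial order: nothing lies strictly between `a`
and `b`, so `G` is the Hasse diagram of its partial order. -/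
def Aograph.IsDiagram {V : Type} (G : Aograph V) : Prop :=
  ∀ b a, G.E b a → ∀ c, G.le a c → G.le c b → c = a ∨ c = b

/-- `le` is the intersection of the `t` linear orders `L i`. -/
def IsRealizer {V : Type} (le : V → V → Prop) {t : ℕ} (L : Fin t → V → V → Prop) : Prop :=
  (∀ i, IsLinearOrder V (L i)) ∧ ∀ a b, le a b ↔ ∀ i, L i a b

/-- The dimension: the least positive number of linear extensions with intersection `P(G)`. -/
noncomputable def Aograph.dim {V : Type} (G : Aograph V) : ℕ :=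
  sInf {t | 0 < t ∧ ∃ L : Fin t → V → V → Prop, IsRealizer G.le L}

/-- The `z`-axis. -/
def Spine : Set (ℝ × ℝ × ℝ) := {p | p.1 = 0 ∧ p.2.1 = 0}

/-- The closed half-plane bounded by the `z`-axis in the direction of the vector `u`. -/
def Page (u : ℝ × ℝ) : Set (ℝ × ℝ × ℝ) := {p | ∃ r : ℝ, 0 ≤ r ∧ p.1 = r * u.1 ∧ p.2.1 = r * u.2}

/-- The directions of `n` distinct pages: distinct unit vectors. -/
def Directions {n : ℕ} (u : Fin n → ℝ × ℝ) : Prop :=
  Function.Injective u ∧ ∀ k, (u k).1 ^ 2 + (u k).2 ^ 2 = 1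

/-- The book with pages in the directions `u k`. -/
def Book {n : ℕ} (u : Fin n → ℝ × ℝ) : Set (ℝ × ℝ × ℝ) := {p | ∃ k, p ∈ Page (u k)}

/-- `γ` is piecewise linear on `[0, 1]`. -/
def PiecewiseLinear (γ : ℝ → ℝ × ℝ × ℝ) : Prop :=
  ∃ (k : ℕ) (t : ℕ → ℝ), t 0 = 0 ∧ t k = 1 ∧ (∀ i < k, t i < t (i + 1)) ∧
    ∀ i < k, ∃ p v : ℝ × ℝ × ℝ, ∀ s ∈ Icc (t i) (t (i + 1)), γ s = p + s • v

/-- An order-preserving embedding of `G` in the set `B`. -/
structure OPEmbedding {V : Type} (G : Aograph V) (B : Set (ℝ × ℝ × ℝ)) where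
  pos : V → ℝ × ℝ × ℝ
  arc : V → V → ℝ → ℝ × ℝ × ℝ
  pos_inj : Function.Injective pos
  pos_mem : ∀ v, pos v ∈ B
  arc_pl : ∀ b a, G.E b a → PiecewiseLinear (arc b a)
  arc_zero : ∀ b a, G.E b a → arc b a 0 = pos b
  arc_one : ∀ b a, G.E b a → arc b a 1 = pos a
  arc_mem : ∀ b a, G.E b a → ∀ s ∈ Icc (0 : ℝ) 1, arc b a s ∈ B
  arc_down : ∀ b a, G.E b a → StrictAntiOn (fun s => (arc b a s).2.2) (Icc 0 1)
  arc_vertex : ∀ b a, G.E b a → ∀ s ∈ Icc (0 : ℝ) 1, ∀ v, arc b a s = pos v → v = b ∨ v = a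
  arc_arc : ∀ b a b' a', G.E b a → G.E b' a' → (b, a) ≠ (b', a') →
    ∀ s ∈ Icc (0 : ℝ) 1, ∀ s' ∈ Icc (0 : ℝ) 1, arc b a s = arc b' a' s' →
      ∃ v, arc b a s = pos v ∧ (v = b ∨ v = a) ∧ (v = b' ∨ v = a')

/-! ### The drawing -/

section Drawing

private theorem tent {a b a' b' z : ℝ} (ha : a < z) (hb : z < b) (ha' : a' < z) (hb' : z < b')
    (h1 : ¬(a < a' ∧ b < b')) (h2 : ¬(a' < a ∧ b' < b))
    (he : (b - a) * min (z - a) (b - z) = (b' - a') * min (z - a') (b' - z)) :
    a = a' ∧ b = b' := by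
  have key : ∀ {c d c' d' : ℝ}, c < z → z < d → c' < z → z < d' → c ≤ c' → d' ≤ d →
      (c < c' ∨ d' < d) →
      (d' - c') * min (z - c') (d' - z) < (d - c) * min (z - c) (d - z) := by
    intro c d c' d' h1 h2 h3 h4 h5 h6 h7
    have e1 : min (z - c') (d' - z) ≤ min (z - c) (d - z) :=
      min_le_min (by linarith) (by linarith)
    have e2 : 0 < min (z - c) (d - z) := lt_min (by linarith) (by linarith)
    have e3 : d' - c' < d - c := by
      rcases h7 with h | h <;> linarith
    calc (d' - c') * min (z - c') (d' - z) ≤ (d' - c') * min (z - c) (d - z) :=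
          mul_le_mul_of_nonneg_left e1 (by linarith)
      _ < (d - c) * min (z - c) (d - z) := mul_lt_mul_of_pos_right e3 e2
  rcases lt_trichotomy a a' with h | h | h
  · have h3 : b' ≤ b := not_lt.1 fun h4 => h1 ⟨h, h4⟩
    exact absurd he (key ha hb ha' hb' h.le h3 (Or.inl h)).ne'
  · rcases lt_trichotomy b b' with h4 | h4 | h4
    · exact absurd he (key ha' hb' ha hb h.ge h4.le (Or.inr h4)).ne
    · exact ⟨h, h4⟩
    · exact absurd he (key ha hb ha' hb' h.le h4.le (Or.inr h4)).ne'
  · have h3 : b ≤ b' := not_lt.1 fun h4 => h2 ⟨h, h4⟩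
    exact absurd he (key ha' hb' ha hb h.le h3 (Or.inl h)).ne

variable {V : Type} (G : Aograph V) {n : ℕ} (u : Fin n → ℝ × ℝ) (h : V → ℝ)
  (pg : V → V → Fin n)

/-- distance from the spine -/
private noncomputable def off (b a : V) (s : ℝ) : ℝ := (h b - h a) ^ 2 * min s (1 - s)

private noncomputable def arcF (b a : V) (s : ℝ) : ℝ × ℝ × ℝ :=
  (off h b a s * (u (pg b a)).1, off h b a s * (u (pg b a)).2, h b - s * (h b - h a))

private theorem off_nonneg {b a : V} {s : ℝ} (hs : s ∈ Icc (0 : ℝ) 1) : 0 ≤ off h b a s :=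
  mul_nonneg (sq_nonneg _) (le_min hs.1 (by linarith [hs.2]))

private theorem off_eq {b a : V} {s : ℝ} (hba : h a < h b) :
    off h b a s = (h b - h a) * min (h b - s * (h b - h a) - h a) (h b - (h b - s * (h b - h a))) := by
  have hL : 0 ≤ h b - h a := by linarith
  have e1 : h b - s * (h b - h a) - h a = (h b - h a) * (1 - s) := by ring
  have e2 : h b - (h b - s * (h b - h a)) = (h b - h a) * s := by ring
  rw [off, e1, e2, ← mul_min_of_nonneg _ _ hL, min_comm]
  ring

private theorem off_zero {b a : V} {s : ℝ} (hba : h a < h b)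
    (h0 : off h b a s = 0) : s = 0 ∨ s = 1 := by
  have hL : (h b - h a) ^ 2 ≠ 0 := pow_ne_zero _ (by linarith)
  have h1 : min s (1 - s) = 0 := (mul_eq_zero.1 h0).resolve_left hL
  rcases min_choice s (1 - s) with h2 | h2
  · exact Or.inl (by rw [← h2]; exact h1)
  · exact Or.inr (by rw [h1] at h2; linarith)

private theorem dir_eq {x x' : ℝ} (hx : 0 ≤ x) (hx' : 0 ≤ x') {v v' : ℝ × ℝ}
    (hv : v.1 ^ 2 + v.2 ^ 2 = 1) (hv' : v'.1 ^ 2 + v'.2 ^ 2 = 1) (h1 : x * v.1 = x' * v'.1)
    (h2 : x * v.2 = x' * v'.2) : x = x' ∧ (x = 0 ∨ v = v') := by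
  have e1 : x ^ 2 = x' ^ 2 := by
    calc x ^ 2 = x ^ 2 * (v.1 ^ 2 + v.2 ^ 2) := by rw [hv, mul_one]
      _ = (x * v.1) ^ 2 + (x * v.2) ^ 2 := by ring
      _ = (x' * v'.1) ^ 2 + (x' * v'.2) ^ 2 := by rw [h1, h2]
      _ = x' ^ 2 * (v'.1 ^ 2 + v'.2 ^ 2) := by ring
      _ = x' ^ 2 := by rw [hv', mul_one]
  have e2 : x = x' := (sq_eq_sq₀ hx hx').1 e1
  refine ⟨e2, ?_⟩
  by_cases h0 : x = 0
  · exact Or.inl h0
  · right
    subst e2
    exact Prod.ext (mul_left_cancel₀ h0 h1) (mul_left_cancel₀ h0 h2)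

/-- the general drawing lemma -/
private theorem exists_drawing (hn : 0 < n) (hu : Directions u) (hinj : Function.Injective h)
    (hE : ∀ b a, G.E b a → h a < h b)
    (hc : ∀ b a b' a', G.E b a → G.E b' a' → pg b a = pg b' a' →
      ¬(h a < h a' ∧ h a' < h b ∧ h b < h b')) :
    ∃ D : OPEmbedding G (Book u), (∀ v, D.pos v ∈ Spine) ∧
      ∀ b a, G.E b a → ∃ k, ∀ s ∈ Icc (0 : ℝ) 1, D.arc b a s ∈ Page (u k) ∧
        (D.arc b a s ∈ Spine → s = 0 ∨ s = 1) := by
  have hmem : ∀ b a, ∀ s ∈ Icc (0 : ℝ) 1, arcF u h pg b a s ∈ Page (u (pg b a)) :=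
    fun b a s hs => ⟨off h b a s, off_nonneg h hs, rfl, rfl⟩
  have hspine : ∀ b a, G.E b a → ∀ s ∈ Icc (0 : ℝ) 1, off h b a s = 0 →
      ∃ v, arcF u h pg b a s = (0, 0, h v) ∧ (v = b ∨ v = a) := by
    intro b a hba s _ h0
    rcases off_zero h (hE b a hba) h0 with h1 | h1
    · refine ⟨b, ?_, Or.inl rfl⟩
      rw [arcF, h0, h1]
      simp
    · refine ⟨a, ?_, Or.inr rfl⟩
      rw [arcF, h0, h1]
      simp
  have hoff : ∀ b a, ∀ s, (off h b a s * (u (pg b a)).1 = 0) → (off h b a s * (u (pg b a)).2 = 0) →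
      off h b a s = 0 := by
    intro b a s h1 h2
    have h3 := hu.2 (pg b a)
    have h4 : (off h b a s) ^ 2 = 0 := by
      calc (off h b a s) ^ 2 = (off h b a s) ^ 2 * ((u (pg b a)).1 ^ 2 + (u (pg b a)).2 ^ 2) := by
            rw [h3, mul_one]
        _ = (off h b a s * (u (pg b a)).1) ^ 2 + (off h b a s * (u (pg b a)).2) ^ 2 := by ring
        _ = 0 := by rw [h1, h2]; ring
    exact pow_eq_zero_iff (two_ne_zero) |>.1 h4
  refine ⟨⟨fun v => (0, 0, h v), arcF u h pg, ?_, ?_, ?_, ?_, ?_, ?_, ?_, ?_, ?_⟩, ?_, ?_⟩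
  · intro v w hvw
    exact hinj (congrArg (fun p : ℝ × ℝ × ℝ => p.2.2) hvw)
  · intro v
    exact ⟨⟨0, hn⟩, 0, le_rfl, by simp, by simp⟩
  · intro b a _
    refine ⟨2, fun i => (i : ℝ) / 2, by simp, by norm_num, fun i _ => ?_, fun i hi => ?_⟩
    · show (i : ℝ) / 2 < ((i + 1 : ℕ) : ℝ) / 2
      push_cast
      linarith
    · have hi' : i = 0 ∨ i = 1 := by omega
      rcases hi' with rfl | rfl
      · refine ⟨(0, 0, h b), ((h b - h a) ^ 2 * (u (pg b a)).1, (h b - h a) ^ 2 * (u (pg b a)).2,
          -(h b - h a)), fun s hs => ?_⟩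
        have hs1 : s ≤ 1 - s := by
          have := hs.2
          norm_num at this
          linarith
        have e : off h b a s = (h b - h a) ^ 2 * s := by rw [off, min_eq_left hs1]
        rw [arcF, e]
        refine Prod.ext ?_ (Prod.ext ?_ ?_)
        · simp; ring
        · simp; ring
        · simp; ring
      · refine ⟨((h b - h a) ^ 2 * (u (pg b a)).1, (h b - h a) ^ 2 * (u (pg b a)).2, h b),
          (-((h b - h a) ^ 2 * (u (pg b a)).1), -((h b - h a) ^ 2 * (u (pg b a)).2),
          -(h b - h a)), fun s hs => ?_⟩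
        have hs1 : 1 - s ≤ s := by
          have := hs.1
          norm_num at this
          linarith
        have e : off h b a s = (h b - h a) ^ 2 * (1 - s) := by rw [off, min_eq_right hs1]
        rw [arcF, e]
        refine Prod.ext ?_ (Prod.ext ?_ ?_)
        · simp; ring
        · simp; ring
        · simp; ring
  · intro b a _
    rw [arcF, off]
    simp
  · intro b a _
    rw [arcF, off]
    simp
  · intro b a _ s hs
    exact ⟨pg b a, hmem b a s hs⟩
  · intro b a hba s _ s' _ hss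
    show h b - s' * (h b - h a) < h b - s * (h b - h a)
    have := hE b a hba
    nlinarith
  · intro b a hba s hs v hv
    have h1 : off h b a s * (u (pg b a)).1 = 0 := congrArg (fun p : ℝ × ℝ × ℝ => p.1) hv
    have h2 : off h b a s * (u (pg b a)).2 = 0 := congrArg (fun p : ℝ × ℝ × ℝ => p.2.1) hv
    obtain ⟨w, hw, hw'⟩ := hspine b a hba s hs (hoff b a s h1 h2)
    rw [hw] at hv
    have : w = v := hinj (congrArg (fun p : ℝ × ℝ × ℝ => p.2.2) hv)
    exact this ▸ hw'
  · intro b a b' a' hba hba' hne s hs s' hs' he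
    have h1 : off h b a s * (u (pg b a)).1 = off h b' a' s' * (u (pg b' a')).1 :=
      congrArg (fun p : ℝ × ℝ × ℝ => p.1) he
    have h2 : off h b a s * (u (pg b a)).2 = off h b' a' s' * (u (pg b' a')).2 :=
      congrArg (fun p : ℝ × ℝ × ℝ => p.2.1) he
    have h3 : h b - s * (h b - h a) = h b' - s' * (h b' - h a') :=
      congrArg (fun p : ℝ × ℝ × ℝ => p.2.2) he
    obtain ⟨h4, h5⟩ := dir_eq (off_nonneg h hs) (off_nonneg h hs') (hu.2 _) (hu.2 _) h1 h2
    have hlt := hE b a hba
    have hlt' := hE b' a' hba'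
    by_cases h0 : off h b a s = 0
    · obtain ⟨v, hv, hv'⟩ := hspine b a hba s hs h0
      obtain ⟨w, hw, hw'⟩ := hspine b' a' hba' s' hs' (h4 ▸ h0)
      have hvw : v = w := by
        apply hinj
        have : ((0, 0, h v) : ℝ × ℝ × ℝ) = (0, 0, h w) := by rw [← hv, he, hw]
        exact congrArg (fun p : ℝ × ℝ × ℝ => p.2.2) this
      exact ⟨v, hv, hv', hvw ▸ hw'⟩
    · exfalso
      have hpg : pg b a = pg b' a' := hu.1 (h5.resolve_left h0)
      have hpos : 0 < off h b a s := lt_of_le_of_ne (off_nonneg h hs) (Ne.symm h0)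
      have hpos' : 0 < off h b' a' s' := h4 ▸ hpos
      have hin : ∀ {b a : V} {s : ℝ}, s ∈ Icc (0 : ℝ) 1 → h a < h b → 0 < off h b a s →
          h a < h b - s * (h b - h a) ∧ h b - s * (h b - h a) < h b := by
        intro b a s hs hlt hp
        have hs0 : 0 < s := by
          rcases hs.1.lt_or_eq with h6 | h6
          · exact h6
          · rw [off, ← h6] at hp
            simp at hp
        have hs1 : s < 1 := by
          rcases hs.2.lt_or_eq with h6 | h6
          · exact h6
          · rw [off, h6] at hp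
            simp at hp
        constructor <;> nlinarith
      obtain ⟨i1, i2⟩ := hin hs hlt hpos
      obtain ⟨j1, j2⟩ := hin hs' hlt' hpos'
      rw [← h3] at j1 j2
      have e1 := off_eq h (s := s) hlt
      have e2 := off_eq h (s := s') hlt'
      rw [← h3] at e2
      have hfin := tent i1 i2 j1 j2
        (fun h6 => hc b a b' a' hba hba' hpg ⟨h6.1, j1.trans i2, h6.2⟩)
        (fun h6 => hc b' a' b a hba' hba hpg.symm ⟨h6.1, i1.trans j2, h6.2⟩)
        (by rw [← e1, ← e2, h4])
      exact hne (Prod.ext (hinj hfin.2) (hinj hfin.1))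
  · intro v
    exact ⟨rfl, rfl⟩
  · intro b a hba
    refine ⟨pg b a, fun s hs => ⟨hmem b a s hs, fun hsp => ?_⟩⟩
    exact off_zero h (hE b a hba) (hoff b a s hsp.1 hsp.2)

end Drawing

/-! ### The dimension -/

section Dimension

variable {V : Type}

private theorem isPartialOrder_le (G : Aograph V) : IsPartialOrder V G.le where
  refl a := Relation.ReflTransGen.refl
  trans a b c h1 h2 := Relation.ReflTransGen.trans h2 h1
  antisymm a b h1 h2 := by
    rcases Relation.reflTransGen_iff_eq_or_transGen.1 h1 with h | h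
    · exact h
    · exact absurd (Relation.TransGen.trans_left h h2) (G.acyclic b)

/-- a linear extension reversing an incomparable pair -/
private theorem exists_ext (G : Aograph V) {x y : V} (hxy : ¬G.le x y) :
    ∃ L : V → V → Prop, IsLinearOrder V L ∧ (∀ a b, G.le a b → L a b) ∧ ¬L x y := by
  have hP := isPartialOrder_le G
  let r : V → V → Prop := fun a b => G.le a b ∨ (G.le a y ∧ G.le x b)
  have hr : IsPartialOrder V r :=
    { refl := fun a => Or.inl (hP.refl a)
      trans := by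
        rintro a b c (h1 | h1) (h2 | h2)
        · exact Or.inl (hP.trans _ _ _ h1 h2)
        · exact Or.inr ⟨hP.trans _ _ _ h1 h2.1, h2.2⟩
        · exact Or.inr ⟨h1.1, hP.trans _ _ _ h1.2 h2⟩
        · exact Or.inr ⟨h1.1, h2.2⟩
      antisymm := by
        rintro a b (h1 | h1) (h2 | h2)
        · exact hP.antisymm _ _ h1 h2
        · exact absurd (hP.trans _ _ _ h2.2 (hP.trans _ _ _ h1 h2.1)) hxy
        · exact absurd (hP.trans _ _ _ h1.2 (hP.trans _ _ _ h2 h1.1)) hxy
        · exact absurd (hP.trans _ _ _ h1.2 h2.1) hxy }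
  obtain ⟨L, hL, hrL⟩ := @extend_partialOrder V r hr
  refine ⟨L, hL, fun a b h => hrL a b (Or.inl h), fun h => hxy ?_⟩
  have h1 : L y x := hrL y x (Or.inr ⟨hP.refl y, hP.refl x⟩)
  have h2 : x = y := hL.antisymm _ _ h h1
  rw [h2]
  exact hP.refl y

private theorem exists_realizer [Fintype V] (G : Aograph V) :
    ∃ t, 0 < t ∧ ∃ L : Fin t → V → V → Prop, IsRealizer G.le L := by
  classical
  have hP := isPartialOrder_le G
  obtain ⟨L0, hL0, hL0'⟩ := @extend_partialOrder V G.le hP
  let I := Option {p : V × V // ¬G.le p.1 p.2}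
  choose f hf1 hf2 hf3 using fun p : {p : V × V // ¬G.le p.1 p.2} => exists_ext G p.2
  let e := Fintype.equivFin I
  refine ⟨Fintype.card I, Fintype.card_pos_iff.2 ⟨none⟩,
    fun i => (e.symm i).elim L0 f, fun i => ?_, fun a b => ⟨fun h i => ?_, fun h => ?_⟩⟩
  · show IsLinearOrder V ((e.symm i).elim L0 f)
    generalize e.symm i = o
    cases o with
    | none => exact hL0
    | some p => exact hf1 p
  · show (e.symm i).elim L0 f a b
    generalize e.symm i = o
    cases o with
    | none => exact hL0' a b h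
    | some p => exact hf2 p a b h
  · by_contra hab
    have h1 := h (e (some ⟨(a, b), hab⟩))
    simp only [Equiv.symm_apply_apply] at h1
    exact hf3 ⟨(a, b), hab⟩ h1

private theorem le_dim [Fintype V] (G : Aograph V) {m : ℕ} (α β : Fin m → V)
    (h1 : ∀ i j, i ≠ j → G.le (α i) (β j)) (h2 : ∀ i, ¬G.le (α i) (β i)) : m ≤ G.dim := by
  obtain ⟨t, ht⟩ := exists_realizer G
  have hne : {t | 0 < t ∧ ∃ L : Fin t → V → V → Prop, IsRealizer G.le L}.Nonempty := ⟨t, ht⟩
  obtain ⟨-, L, hL, hL'⟩ := Nat.sInf_mem hne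
  have hex : ∀ i, ∃ k, ¬L k (α i) (β i) := by
    intro i
    by_contra hcon
    push Not at hcon
    exact h2 i ((hL' _ _).2 hcon)
  choose σ hσ using hex
  have hinj : Function.Injective σ := by
    intro i j hij
    by_contra hne
    have hlin := hL (σ i)
    have e1 : L (σ i) (β i) (α i) := (hlin.total (α i) (β i)).resolve_left (hσ i)
    have e2 : L (σ i) (β j) (α j) := by
      have h3 := hσ j
      rw [← hij] at h3
      exact (hlin.total (α j) (β j)).resolve_left h3
    have e3 : L (σ i) (α i) (β j) := (hL' _ _).1 (h1 i j hne) (σ i)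
    have e4 : L (σ i) (α j) (β i) := (hL' _ _).1 (h1 j i (Ne.symm hne)) (σ i)
    exact hσ i (hlin.trans _ _ _ e3 (hlin.trans _ _ _ e2 e4))
  have h5 := Fintype.card_le_of_injective σ hinj
  rw [Fintype.card_fin, Fintype.card_fin] at h5
  exact h5

end Dimension

/-! ### The graph -/

private inductive Vtx (m : ℕ) : Type
  | bot : Vtx m
  | top : Vtx m
  | a : Fin m → Vtx m
  | b : Fin m → Vtx m
  | c : Fin m → Vtx m
  | d : Fin m → Vtx m

private inductive Ed (m : ℕ) : Vtx m → Vtx m → Prop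
  | top_b (i : Fin m) : Ed m .top (.b i)
  | top_c (i : Fin m) (h : (i : ℕ) + 1 = m) : Ed m .top (.c i)
  | top_d (i : Fin m) (h : (i : ℕ) = 0) : Ed m .top (.d i)
  | b_c (i j : Fin m) (h : (j : ℕ) = i + 1) : Ed m (.b j) (.c i)
  | b_d (i j : Fin m) (h : (i : ℕ) = j + 1) : Ed m (.b j) (.d i)
  | c_c (i j : Fin m) (h : (j : ℕ) = i + 1) : Ed m (.c j) (.c i)
  | c_a (i : Fin m) : Ed m (.c i) (.a i)
  | d_d (i j : Fin m) (h : (i : ℕ) = j + 1) : Ed m (.d j) (.d i)
  | d_a (i : Fin m) : Ed m (.d i) (.a i)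
  | a_bot (i : Fin m) : Ed m (.a i) .bot

private def ht (m : ℕ) : Vtx m → ℤ
  | .bot => 0
  | .top => 4 * m + 1
  | .a i => 2 * (i : ℕ) + 1
  | .c i => 2 * (i : ℕ) + 2
  | .b i => 4 * m - 1 - 2 * (i : ℕ)
  | .d i => 4 * m - 2 * (i : ℕ)

private def pgN (m : ℕ) : Vtx m → Vtx m → ℕ
  | .top, _ => 2
  | .a _, _ => 2
  | .b _, .d _ => 1
  | .d _, _ => 1
  | _, _ => 0

private theorem pgN_lt (m : ℕ) (x y : Vtx m) : pgN m x y < 3 := by
  unfold pgN
  split <;> omega

private theorem ht_inj (m : ℕ) : Function.Injective (ht m) := by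
  intro x y h
  cases x <;> cases y <;> simp only [ht] at h <;> first
    | rfl
    | (exfalso; omega)
    | (congr 1; apply Fin.ext; omega)

private theorem ht_lt {m : ℕ} {x y : Vtx m} (h : Ed m x y) : ht m y < ht m x := by
  cases h <;> simp only [ht] <;> omega

private theorem noncross {m : ℕ} {x y x' y' : Vtx m} (h : Ed m x y) (h' : Ed m x' y')
    (hp : pgN m x y = pgN m x' y') :
    ¬(ht m y < ht m y' ∧ ht m y' < ht m x ∧ ht m x < ht m x') := by
  cases h <;> cases h' <;> simp only [pgN] at hp <;> simp only [ht] <;> omega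

private def K (m : ℕ) : Aograph (Vtx m) where
  E := Ed m
  acyclic v hv := by
    have h : ∀ x y, Relation.TransGen (Ed m) x y → ht m y < ht m x := by
      intro x y hxy
      induction hxy with
      | single h => exact ht_lt h
      | tail _ h ih => exact (ht_lt h).trans ih
    exact lt_irrefl _ (h v v hv)

private theorem path_c {m : ℕ} (k : ℕ) : ∀ i j : Fin m, (j : ℕ) = i + k →
    Relation.ReflTransGen (Ed m) (.c j) (.c i) := by
  induction k with
  | zero =>
    intro i j h
    have : j = i := Fin.ext (by omega)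
    rw [this]
  | succ k ih =>
    intro i j h
    have hlt : (j : ℕ) - 1 < m := by omega
    exact Relation.ReflTransGen.head (Ed.c_c ⟨(j : ℕ) - 1, hlt⟩ j (by simp; omega))
      (ih i ⟨(j : ℕ) - 1, hlt⟩ (by simp; omega))

private theorem path_d {m : ℕ} (k : ℕ) : ∀ i j : Fin m, (i : ℕ) = j + k →
    Relation.ReflTransGen (Ed m) (.d j) (.d i) := by
  induction k with
  | zero =>
    intro i j h
    have : j = i := Fin.ext (by omega)
    rw [this]
  | succ k ih =>
    intro i j h
    have hlt : (j : ℕ) + 1 < m := by omega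
    exact Relation.ReflTransGen.head (Ed.d_d ⟨(j : ℕ) + 1, hlt⟩ j rfl)
      (ih i ⟨(j : ℕ) + 1, hlt⟩ (by simp; omega))

private theorem K_bounded (m : ℕ) (hm : 2 ≤ m) : (K m).Bounded := by
  have hc : ∀ i : Fin m, Relation.ReflTransGen (Ed m) .top (.c i) := by
    intro i
    have hlt : m - 1 < m := by omega
    exact Relation.ReflTransGen.head (Ed.top_c ⟨m - 1, hlt⟩ (by simp; omega))
      (path_c (m - 1 - i) i ⟨m - 1, hlt⟩ (by simp; omega))
  have hd : ∀ i : Fin m, Relation.ReflTransGen (Ed m) .top (.d i) := by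
    intro i
    have hlt : 0 < m := by omega
    exact Relation.ReflTransGen.head (Ed.top_d ⟨0, hlt⟩ rfl)
      (path_d i i ⟨0, hlt⟩ (by simp))
  have hab : ∀ i : Fin m, Relation.ReflTransGen (Ed m) (.a i) .bot := fun i =>
    Relation.ReflTransGen.single (Ed.a_bot i)
  have hcb : ∀ i : Fin m, Relation.ReflTransGen (Ed m) (.c i) .bot := fun i =>
    Relation.ReflTransGen.head (Ed.c_a i) (hab i)
  have hdb : ∀ i : Fin m, Relation.ReflTransGen (Ed m) (.d i) .bot := fun i =>
    Relation.ReflTransGen.head (Ed.d_a i) (hab i)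
  refine ⟨⟨.top, fun v => ?_⟩, ⟨.bot, fun v => ?_⟩⟩
  · show Relation.ReflTransGen (Ed m) .top v
    cases v with
    | bot => exact (hc ⟨0, by omega⟩).trans (hcb _)
    | top => exact Relation.ReflTransGen.refl
    | a i => exact (hc i).tail (Ed.c_a i)
    | b i => exact Relation.ReflTransGen.single (Ed.top_b i)
    | c i => exact hc i
    | d i => exact hd i
  · show Relation.ReflTransGen (Ed m) v .bot
    cases v with
    | bot => exact Relation.ReflTransGen.refl
    | top => exact (hc ⟨0, by omega⟩).trans (hcb _)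
    | a i => exact hab i
    | b i =>
      by_cases h0 : (i : ℕ) = 0
      · exact Relation.ReflTransGen.head (Ed.b_d ⟨1, by omega⟩ i (by simp [h0])) (hdb _)
      · exact Relation.ReflTransGen.head (Ed.b_c ⟨(i : ℕ) - 1, by omega⟩ i (by simp; omega)) (hcb _)
    | c i => exact hcb i
    | d i => exact hdb i

private theorem K_le {m : ℕ} (i j : Fin m) (hij : i ≠ j) : (K m).le (.a i) (.b j) := by
  show Relation.ReflTransGen (Ed m) (.b j) (.a i)
  rcases lt_or_gt_of_ne (fun h : (i : ℕ) = j => hij (Fin.ext h)) with h | h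
  · have hlt : (j : ℕ) - 1 < m := by omega
    exact Relation.ReflTransGen.head (Ed.b_c ⟨(j : ℕ) - 1, hlt⟩ j (by simp; omega))
      ((path_c ((j : ℕ) - 1 - i) i ⟨(j : ℕ) - 1, hlt⟩ (by simp; omega)).tail (Ed.c_a i))
  · have hlt : (j : ℕ) + 1 < m := by omega
    exact Relation.ReflTransGen.head (Ed.b_d ⟨(j : ℕ) + 1, hlt⟩ j rfl)
      ((path_d ((i : ℕ) - (j + 1)) i ⟨(j : ℕ) + 1, hlt⟩ (by simp; omega)).tail (Ed.d_a i))

/-- description of reachability -/
private def Rc {m : ℕ} : Vtx m → Vtx m → Prop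
  | .top, _ => True
  | .bot, .bot => True
  | .bot, .top => False
  | .bot, .a _ => False
  | .bot, .b _ => False
  | .bot, .c _ => False
  | .bot, .d _ => False
  | .a _, .bot => True
  | .a _, .top => False
  | .a i, .a j => (i : ℕ) = j
  | .a _, .b _ => False
  | .a _, .c _ => False
  | .a _, .d _ => False
  | .c _, .bot => True
  | .c _, .top => False
  | .c i, .a j => (j : ℕ) ≤ i
  | .c _, .b _ => False
  | .c i, .c j => (j : ℕ) ≤ i
  | .c _, .d _ => False
  | .d _, .bot => True
  | .d _, .top => False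
  | .d i, .a j => (i : ℕ) ≤ j
  | .d _, .b _ => False
  | .d _, .c _ => False
  | .d i, .d j => (i : ℕ) ≤ j
  | .b _, .bot => True
  | .b _, .top => False
  | .b i, .a j => (i : ℕ) ≠ j
  | .b i, .b j => (i : ℕ) = j
  | .b i, .c j => (j : ℕ) < i
  | .b i, .d j => (i : ℕ) < j

private theorem Rc_refl {m : ℕ} (x : Vtx m) : Rc x x := by
  cases x <;> simp [Rc]

private theorem Rc_step {m : ℕ} {x y z : Vtx m} (h : Rc x y) (h' : Ed m y z) : Rc x z := by
  cases h' <;> cases x <;> simp only [Rc] at h ⊢ <;> omega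

private theorem Rc_of {m : ℕ} {x y : Vtx m} (h : Relation.ReflTransGen (Ed m) x y) : Rc x y := by
  induction h with
  | refl => exact Rc_refl x
  | tail _ h ih => exact Rc_step ih h

private theorem K_not_le {m : ℕ} (i : Fin m) : ¬(K m).le (.a i) (.b i) := fun h =>
  Rc_of h rfl

private theorem K_diagram (m : ℕ) : (K m).IsDiagram := by
  intro x y hxy z h1 h2
  have e1 : Rc z y := Rc_of h1
  have e2 : Rc x z := Rc_of h2
  change Ed m x y at hxy
  have e3 : ht m z = ht m y ∨ ht m z = ht m x := by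
    cases hxy <;> cases z <;> simp only [Rc] at e1 e2 <;>
      simp only [ht, or_true, true_or] <;> omega
  exact e3.imp (fun h => ht_inj m h) (fun h => ht_inj m h)

private noncomputable instance (m : ℕ) : Fintype (Vtx m) := by
  classical
  let f : Option (Option (Fin 4 × Fin m)) → Vtx m := fun x => match x with
    | none => .bot
    | some none => .top
    | some (some (0, i)) => .a i
    | some (some (1, i)) => .b i
    | some (some (2, i)) => .c i
    | some (some (3, i)) => .d i
  refine Fintype.ofSurjective f fun v => ?_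
  cases v with
  | bot => exact ⟨none, rfl⟩
  | top => exact ⟨some none, rfl⟩
  | a i => exact ⟨some (some (0, i)), rfl⟩
  | b i => exact ⟨some (some (1, i)), rfl⟩
  | c i => exact ⟨some (some (2, i)), rfl⟩
  | d i => exact ⟨some (some (3, i)), rfl⟩

/-- For every book with `n ≥ 3` pages and every `d` there is a bounded aograph of dimension at least
`d` (the Hasse diagram of its order) with an order-preserving embedding in the book, in which
moreover all vertices lie on the spine and every edge lies in one page and meets the spine only in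
its endpoints. -/
theorem result (n : ℕ) (hn : 3 ≤ n) (u : Fin n → ℝ × ℝ) (hu : Directions u) (d : ℕ) :
    ∃ (V : Type) (_ : Fintype V) (G : Aograph V), G.Bounded ∧ G.IsDiagram ∧ d ≤ G.dim ∧
      ∃ D : OPEmbedding G (Book u), (∀ v, D.pos v ∈ Spine) ∧
        ∀ b a, G.E b a → ∃ k, ∀ s ∈ Icc (0 : ℝ) 1, D.arc b a s ∈ Page (u k) ∧
          (D.arc b a s ∈ Spine → s = 0 ∨ s = 1) := by
  refine ⟨Vtx (d + 2), inferInstance, K (d + 2), K_bounded _ (by omega), K_diagram _, ?_, ?_⟩
  · exact (Nat.le_add_right d 2).trans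
      (le_dim (K (d + 2)) Vtx.a Vtx.b (fun i j h => K_le i j h) (fun i => K_not_le i))
  · refine exists_drawing (K (d + 2)) u (fun v => (ht (d + 2) v : ℝ))
      (fun x y => ⟨pgN (d + 2) x y, (pgN_lt _ x y).trans_le hn⟩) (by omega) hu ?_ ?_ ?_
    · intro x y h
      have h2 : ((ht (d + 2) x : ℤ) : ℝ) = ((ht (d + 2) y : ℤ) : ℝ) := h
      exact ht_inj _ (by exact_mod_cast h2)
    · intro b a h
      exact_mod_cast ht_lt h
    · intro b a b' a' h h' hp
      have := noncross h h' (by simpa using congrArg Fin.val hp)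
      exact_mod_cast this

end Pool.Agent.Results.MP_c8a2a1_co.ThreePages
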